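import Pool.Agent.W_c2305b_h77.FatDefs

/-!
# MP_c2305b_co, FAT: definitions for the tiling side
-/

open MeasureTheory Set Module

namespace C2305bFat

open W82
open C2305b.TL (cr)

/-- Rotation by 90 degrees. -/
noncomputable def rt (u : V) : V := !₂[-u 1, u 0]

/-- `u` is a unit tangent (counterclockwise) of `D` at `v`. -/
def Sup (D : Set V) (v u : V) : Prop := ip u u = 1 ∧ ∀ z ∈ D, 0 ≤ cr u (z - v)

/-- `v` belongs to exactly two cells, `i` on the right and `j` on the left of the line through `v`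
with direction `x u + rt u`. -/
structure Jun {ι : Type*} (P : ι → Set V) (v u : V) (x : ℝ) (i j : ι) : Prop where
  ne : i ≠ j
  vi : v ∈ P i
  vj : v ∈ P j
  only : ∀ l, v ∈ P l → l = i ∨ l = j
  right : ∀ z ∈ P i, cr (x • u + rt u) (z - v) ≤ 0
  left : ∀ z ∈ P j, 0 ≤ cr (x • u + rt u) (z - v)

/-- Corner frames `k = 0, 1, 2, 3`; the corner is `o - cA k - cB k`. -/
def cA (A B : V) (k : Fin 4) : V := ![A, B, -A, -B] k

def cB (A B : V) (k : Fin 4) : V := ![B, -A, -B, A] k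

/-- The corner number `k` of the parallelogram. -/
def crn (o A B : V) (k : Fin 4) : V := o - cA A B k - cB A B k

/-- The value of `X` at the corner `k`. -/
def Xcr (A B : V) (k : Fin 4) : ℝ := - ip (cA A B k) (cB A B k)

/-- A tiling whose cells lie in copies of bodies in normal form. -/
structure FT {ι : Type*} (D : Set V) (P : ι → Set V) (T σ β ρ k0 : ℝ) (o A B : ι → V)
    (K : ι → Set V) : Prop where
  til : Tiling D P
  cell : ∀ i, P i ⊆ (fun z => fr (o i) (A i) (B i) z) '' K i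
  nf : ∀ i, NF (K i) T σ
  cr1 : ∀ i, cr (A i) (B i) = 1
  bet : 1 / 2 ≤ β
  bet2 : ρ * β ≤ 3
  A1 : ∀ i, β ≤ ip (A i) (A i)
  A2 : ∀ i, ip (A i) (A i) ≤ ρ * β
  B1 : ∀ i, β ≤ ip (B i) (B i)
  B2 : ∀ i, ip (B i) (B i) ≤ ρ * β
  AB : ∀ i j, |ip (A i) (B i)| = |ip (A j) (B j)|
  AB1 : ∀ i, |ip (A i) (B i)| ≤ k0

/-- All cells at `v` are near their parallelograms. -/
def RegV {ι : Type*} (P : ι → Set V) (o A B : ι → V) (δ : ℝ) (v : V) : Prop :=
  ∀ l, v ∈ P l → Near δ (o l) (A l) (B l) (P l)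

end C2305bFat
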