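import Pool.Agent.W_c2305b_h35.Far4
import Pool.Agent.W_c2305b_h89.Family
import Pool.Agent.W_c2305b_h89.Generic2

/-!
# MP_c2305b_co, bounded eccentricity: normalisation and the split near / far

`hexBound_image`: the hexagon bound is invariant under similarities.
`top_of_near`: if violations for bodies `K` with small gap `t(6) - t(5)` have a bounded number of
shared boundary points, then one threshold serves all centrally symmetric convex domains of bounded
eccentricity.
-/

open MeasureTheory Set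
open scoped Pointwise

namespace C2305bFat

open C2305b (Pl t6 HexBound Noncrossing)

/-- A disc of some radius `r` is contained in `K`, and `K` is contained in a disc of radius
`α r`. -/
def BoundedEcc (α : ℝ) (K : Set Pl) : Prop :=
  ∃ (a b : Pl) (r : ℝ), 0 < r ∧ Metric.closedBall a r ⊆ K ∧ K ⊆ Metric.closedBall b (α * r)

/-- The isometry `x ↦ r⁻¹ φ (z + r x)`. -/
noncomputable def conjIso (z : Pl) (r : ℝ) (hr : 0 < r) (φ : Pl ≃ᵢ Pl) : Pl ≃ᵢ Pl where
  toFun x := r⁻¹ • φ (z + r • x)
  invFun y := r⁻¹ • (φ.symm (r • y) - z)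
  left_inv x := by
    simp only
    rw [smul_smul, mul_inv_cancel₀ hr.ne', one_smul, φ.symm_apply_apply, add_sub_cancel_left,
      smul_smul, inv_mul_cancel₀ hr.ne', one_smul]
  right_inv y := by
    simp only
    rw [smul_smul, mul_inv_cancel₀ hr.ne', one_smul, add_sub_cancel, φ.apply_symm_apply,
      smul_smul, inv_mul_cancel₀ hr.ne', one_smul]
  isometry_toFun := by
    apply Isometry.of_dist_eq
    intro x y
    rw [dist_smul₀, φ.dist_eq, dist_add_left, dist_smul₀, ← mul_assoc, Real.norm_eq_abs,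
      Real.norm_eq_abs, abs_inv, inv_mul_cancel₀ (abs_pos.2 hr.ne').ne', one_mul]

lemma conjIso_image (z : Pl) (r : ℝ) (hr : 0 < r) (φ : Pl ≃ᵢ Pl) (K : Set Pl) :
    conjIso z r hr φ '' K = r⁻¹ • (φ '' ((fun x => z + r • x) '' K)) := by
  rw [← image_smul, image_image, image_image]
  rfl

lemma Noncrossing.smul {A B : Set Pl} {r : ℝ} (hr : r ≠ 0) (h : Noncrossing A B) :
    Noncrossing (r • A) (r • B) := by
  have h1 : ∀ X Y : Set Pl, IsPreconnected (X \ Y) → IsPreconnected (r • X \ r • Y) := by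
    intro X Y hXY
    rw [← smul_set_sdiff₀ hr, ← image_smul]
    exact hXY.image _ (continuous_const_smul r).continuousOn
  exact ⟨h1 _ _ h.1, h1 _ _ h.2⟩

/-- The hexagon bound is invariant under similarities. -/
theorem hexBound_image {K : Set Pl} {N : ℕ} (z : Pl) {r : ℝ} (hr : 0 < r) (h : HexBound K N) :
    HexBound ((fun x => z + r • x) '' K) N := by
  intro D hDc hDk hDi n hn φ hnc hcov
  have hr' : r⁻¹ ≠ 0 := inv_ne_zero hr.ne'
  have hint : (interior (r⁻¹ • D)).Nonempty := by
    rw [interior_smul₀ hr']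
    exact hDi.smul_set
  have h1 := h (r⁻¹ • D) (hDc.smul _) (hDk.smul _) hint n hn (fun i => conjIso z r hr (φ i))
    (by
      intro i j hij
      rw [conjIso_image, conjIso_image]
      exact Noncrossing.smul hr' (hnc i j hij))
    (by
      simp only [conjIso_image]
      rw [← smul_set_iUnion]
      exact smul_set_mono hcov)
  have hD : D = r • (r⁻¹ • D) := by
    rw [smul_smul, mul_inv_cancel₀ hr.ne', one_smul]
  have ht : t6 ((fun x => z + r • x) '' K) = ENNReal.ofReal (r ^ 2) * t6 K := by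
    have h2 := C2305b.t6_affine (r • (LinearMap.id : Pl →ₗ[ℝ] Pl)) z K
    rw [C2305b.det_smul_id, abs_of_nonneg (sq_nonneg r)] at h2
    rw [← h2]
    rfl
  calc volume D = ENNReal.ofReal (r ^ 2) * volume (r⁻¹ • D) := by
        conv_lhs => rw [hD]
        rw [C2305b.volume_smul_set]
    _ ≤ ENNReal.ofReal (r ^ 2) * (n * t6 K) := by gcongr
    _ = n * t6 ((fun x => z + r • x) '' K) := by rw [ht]; ring

/-- Normal form of a centrally symmetric convex domain of bounded eccentricity. -/
theorem normal_form {α : ℝ} {K : Set Pl} (hK : C2305b.SymDomain K) (hE : BoundedEcc α K) :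
    ∃ (z : Pl) (r : ℝ) (K' : Set Pl), 0 < r ∧ K = (fun x => z + r • x) '' K' ∧
      Convex ℝ K' ∧ IsCompact K' ∧ (∀ v ∈ K', -v ∈ K') ∧ Metric.closedBall 0 1 ⊆ K' ∧
      K' ⊆ Metric.closedBall 0 α := by
  obtain ⟨⟨hconv, hcomp, -⟩, z, hz⟩ := hK
  obtain ⟨a, b, r, hr, hin, hout⟩ := hE
  refine ⟨z, r, (fun x => r⁻¹ • (x - z)) '' K, hr, ?_, ?_, ?_, ?_, ?_, ?_⟩
  · rw [image_image]
    have : (fun x : Pl => z + r • (r⁻¹ • (x - z))) = id := by
      funext x
      rw [smul_smul, mul_inv_cancel₀ hr.ne', one_smul, add_sub_cancel]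
      rfl
    rw [this, image_id]
  · have : (fun x : Pl => r⁻¹ • (x - z)) '' K = r⁻¹ • ((fun x => -z + x) '' K) := by
      rw [← image_smul, image_image]
      apply image_congr
      intro x _
      have e : x - z = -z + x := by abel
      rw [e]
    rw [this]
    exact (hconv.translate (-z)).smul _
  · exact hcomp.image (by fun_prop)
  · rintro _ ⟨x, hx, rfl⟩
    refine ⟨(2 : ℝ) • z - x, hz x hx, ?_⟩
    simp only
    rw [← smul_neg]
    congr 1
    rw [two_smul]
    abel
  · intro y hy
    rw [Metric.mem_closedBall, dist_zero_right] at hy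
    have hry : ‖r • y‖ ≤ r := by
      rw [norm_smul, Real.norm_eq_abs, abs_of_pos hr]
      nlinarith
    have m1 : a + r • y ∈ K := by
      apply hin
      rw [Metric.mem_closedBall, dist_eq_norm, add_sub_cancel_left]
      exact hry
    have m2 : a - r • y ∈ K := by
      apply hin
      rw [Metric.mem_closedBall, dist_eq_norm, sub_sub_cancel_left, norm_neg]
      exact hry
    have m3 := hz _ m2
    have m4 := hconv m1 m3 (by norm_num : (0 : ℝ) ≤ 1 / 2) (by norm_num : (0 : ℝ) ≤ 1 / 2)
      (by norm_num)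
    refine ⟨z + r • y, ?_, ?_⟩
    · have e : z + r • y = (1 / 2 : ℝ) • (a + r • y) + (1 / 2 : ℝ) • ((2 : ℝ) • z - (a - r • y)) := by
        module
      rw [e]; exact m4
    · simp only
      rw [add_sub_cancel_left, smul_smul, inv_mul_cancel₀ hr.ne', one_smul]
  · rintro _ ⟨x, hx, rfl⟩
    have n1 := hout hx
    have n2 := hout (hz x hx)
    rw [Metric.mem_closedBall, dist_eq_norm] at n1 n2
    rw [Metric.mem_closedBall, dist_zero_right, norm_smul, Real.norm_eq_abs, abs_inv,
      abs_of_pos hr, inv_mul_le_iff₀ hr]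
    have e : x - z = (1 / 2 : ℝ) • ((x - b) - ((2 : ℝ) • z - x - b)) := by module
    rw [e, norm_smul, Real.norm_eq_abs, abs_of_pos (by norm_num : (0 : ℝ) < 1 / 2)]
    have := norm_sub_le (x - b) ((2 : ℝ) • z - x - b)
    linarith

/-- The statement proved by the near part: bodies with a small gap `t(6) - t(5)`. -/
def NearBound (α : ℝ) : Prop :=
  ∃ s0 > (0 : ℝ), ∃ B : ℕ, ∀ K : Set Pl, Convex ℝ K → IsCompact K → (∀ v ∈ K, -v ∈ K) →
    Metric.closedBall 0 1 ⊆ K → K ⊆ Metric.closedBall 0 α →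
    t6 K ≤ C2305bH52.Dow.tm 5 K + ENNReal.ofReal s0 →
    ∀ (ι : Type) [Fintype ι] (D : Set Pl) (P : ι → Set Pl), Vio D P K → (W82.Vb D P).ncard ≤ B

/-- **One threshold for bounded eccentricity.** -/
theorem top_of_near (α : ℝ) (hnear : NearBound α) :
    ∃ N : ℕ, ∀ K : Set Pl, C2305b.SymDomain K → BoundedEcc α K → HexBound K N := by
  obtain ⟨s0, hs0, B, hB⟩ := hnear
  obtain ⟨N1, h1⟩ := far α s0 hs0
  obtain ⟨N2, h2⟩ := frame_bound α B
  refine ⟨max N1 N2, fun K hK hE => ?_⟩
  obtain ⟨z, r, K', hr, rfl, hc, hk, hsym, hin, hout⟩ := normal_form hK hE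
  apply hexBound_image z hr
  rcases le_total (C2305bH52.Dow.tm 5 K' + ENNReal.ofReal s0) (t6 K') with h | h
  · exact (h1 K' hc hk hsym hin hout h).mono (le_max_left _ _)
  · exact (h2 K' hc hk hin hout (hB K' hc hk hsym hin hout h)).mono (le_max_right _ _)

end C2305bFat
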