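import Pool.Agent.W82_c2305b.Account

/-!
# MP_c2305b_co, FAT: definitions

Bodies near a parallelogram, frames, the charge of a cell at a boundary vertex.
-/

open MeasureTheory Set Module

namespace C2305bFat

open W82
open C2305b.TL (cr)

/-- Euclidean product. -/
def ip (u v : V) : ℝ := u 0 * v 0 + u 1 * v 1

/-- The point with coordinates `z` in the frame `(o; A, B)`. -/
noncomputable def fr (o A B z : V) : V := o + z 0 • A + z 1 • B

/-- `E = min (|k| / (2 β)) u`. -/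
noncomputable def Ec (β u k : ℝ) : ℝ := min (|k| / (2 * β)) u

/-- `sign (k) E`. -/
noncomputable def ph (E k : ℝ) : ℝ := if 0 < k then E else if k < 0 then -E else 0

/-- The charge: `X` is minus the cotangent of the sector, `Xc` its value at a corner of the
parallelogram, `u` the clamp. -/
noncomputable def chg (β u X Xc : ℝ) : ℝ :=
  max (-u - 2 * Ec β u Xc) (min u ((X - Xc) / (2 * β))) + ph (Ec β u Xc) Xc

/-- Normal form of a body near a parallelogram: `[-1,1]^2 ⊆ K ⊆ [-1-2σ,1+2σ]^2`, and the areas of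
the hulls of `m` points of `K` are at most `T + (m - 6) σ`, with `4 ≤ T ≤ 4 + 4σ`. -/
structure NF (K : Set V) (T σ : ℝ) : Prop where
  conv : Convex ℝ K
  comp : IsCompact K
  sym : ∀ z ∈ K, -z ∈ K
  sq : ∀ z : V, |z 0| ≤ 1 → |z 1| ≤ 1 → z ∈ K
  bx0 : ∀ z ∈ K, |z 0| ≤ 1 + 2 * σ
  bx1 : ∀ z ∈ K, |z 1| ≤ 1 + 2 * σ
  T0 : 4 ≤ T
  T1 : T ≤ 4 + 4 * σ
  area : ∀ S : Finset V, 2 ≤ S.card → (S : Set V) ⊆ K →
    (volume (convexHull ℝ (S : Set V))).toReal ≤ T + σ * ((S.card : ℝ) - 6)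

/-- The loss of a cell with corner set `S`. -/
noncomputable def lossS (T σ : ℝ) (S : Finset V) : ℝ :=
  T + σ * ((S.card : ℝ) - 6) - (volume (convexHull ℝ (S : Set V))).toReal

/-- Cell `C` (in local coordinates) with a boundary arc from `p` near `(-1,-1)` to `q` near
`(1,-1)`: supporting lines with slopes `-ap`, `aq` at `p`, `q`, separating lines
`x = p 0 + bp (y - p 1)` at `p` and `x = q 0 - bq (y - q 1)` at `q`. -/
structure Arc (C : Set V) (p q : V) (δ ap aq bp bq : ℝ) : Prop where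
  pC : p ∈ C
  qC : q ∈ C
  p0 : |p 0 + 1| ≤ δ
  p1 : |p 1 + 1| ≤ δ
  q0 : |q 0 - 1| ≤ δ
  q1 : |q 1 + 1| ≤ δ
  lp : ∀ z ∈ C, p 1 - ap * (z 0 - p 0) ≤ z 1
  lq : ∀ z ∈ C, q 1 + aq * (z 0 - q 0) ≤ z 1
  mp : ∀ z ∈ C, p 0 + bp * (z 1 - p 1) ≤ z 0
  mq : ∀ z ∈ C, z 0 ≤ q 0 - bq * (z 1 - q 1)
  ap_le : |ap| ≤ δ
  aq_le : |aq| ≤ δ
  bp_ge : -2 ≤ bp
  bp_le : bp ≤ δ
  bq_ge : -2 ≤ bq
  bq_le : bq ≤ δ

/-- The cell in local coordinates. -/
structure CellH (K : Set V) (T σ δ : ℝ) (C : Set V) (S : Finset V) : Prop where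
  nf : NF K T σ
  conv : Convex ℝ C
  comp : IsCompact C
  sub : C ⊆ K
  sq : ∀ z : V, |z 0| ≤ 1 - δ → |z 1| ≤ 1 - δ → z ∈ C
  SC : (S : Set V) ⊆ C
  two : 2 ≤ S.card

/-- The value `(X - Xc) / (2 β)` at a corner with slopes `a`, `b` in a frame with
`|A|^2 = bA`, `|B|^2 = bB`, `A . B = κ`. -/
noncomputable def zP (β bA bB κ a b : ℝ) : ℝ :=
  (a * bB - b * bA + 2 * a * b * κ) / (2 * β * (1 + a * b))

/-- `X` is, up to `δ`, the parallelogram with centre `o` and half sides `A`, `B`. -/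
structure Near (δ : ℝ) (o A B : V) (X : Set V) : Prop where
  inn : ∀ z : V, |z 0| ≤ 1 - δ → |z 1| ≤ 1 - δ → fr o A B z ∈ X
  out : ∀ x ∈ X, ∃ z : V, |z 0| ≤ 1 + δ ∧ |z 1| ≤ 1 + δ ∧ x = fr o A B z

/-- Admissible frames. -/
structure FrOK (k0 : ℝ) (A B : V) : Prop where
  cr1 : cr A B = 1
  hA : ip A A ≤ 3
  hB : ip B B ≤ 3
  hk : |ip A B| ≤ k0

end C2305bFat
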