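import Pool.Agent.W_c2305b_h52.Smooth5
import Pool.Agent.W_c2305b_h68.Chain

/-!
# MP_c2305b_co, static part near parallelograms, 1: the pentagon identity and the estimate
-/

open MeasureTheory Set Real

namespace C2305bFat

open C2305b.TL (V cr)
open C2305bH52.DiscGap (uv uv_zero uv_one cr_uv)
open C2305bH52.Dow

/-- The symmetric hexagon of three directions in a half plane. -/
theorem hex_le {N : V → ℝ} (hN : Nrm N) {a b c : ℝ} (h1 : a ≤ b) (h2 : b ≤ c)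
    (h3 : c ≤ a + π) : FF N a b + FF N b c + FF N a c ≤ sm N 6 := by
  have hpi := Real.pi_pos
  let p : ℕ → ℝ := fun j => if j = 0 then a else if j = 1 then b else if j = 2 then c else
    if j = 3 then a + π else if j = 4 then b + π else if j = 5 then c + π else a + 2 * π
  obtain ⟨u, hu, -, hA⟩ := exists_ext' (N := N) (m := 6) (p := p) (by norm_num)
    (by intro j hj; interval_cases j <;> simp [p] <;> linarith)
    (by intro j hj; interval_cases j <;> simp [p] <;> linarith)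
    (by simp [p])
  have h4 := (sm_spec hN (show 2 ≤ 6 by norm_num)).2 u hu
  have h5 : AA N 6 u = FF N a b + FF N b c + FF N c (a + π) + FF N (a + π) (b + π)
      + FF N (b + π) (c + π) + FF N (c + π) (a + 2 * π) := by
    rw [hA]
    simp [Finset.sum_range_succ, p]
  have e1 : FF N c (a + π) = FF N a c := by rw [FF_right_pi hN, FF_anti a c]; ring
  have e2 : FF N (a + π) (b + π) = FF N a b := FF_pi_pi hN a b
  have e3 : FF N (b + π) (c + π) = FF N b c := FF_pi_pi hN b c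
  have e4 : FF N (c + π) (a + 2 * π) = FF N a c := by
    have : a + 2 * π = (a + π) + π := by ring
    rw [this, FF_pi_pi hN, e1]
  rw [h5, e1, e2, e3, e4] at h4
  linarith

theorem pent_id (p0 p1 p2 p3 p4 : V) :
    cr p0 p1 + cr p1 p2 + cr p2 p3 + cr p3 p4 + cr p4 p0 =
      (cr p0 p1 + cr p1 p2 + cr p0 p2) + 2 * cr p3 p4 - cr (p0 + p3) (p2 + p4) := by
  simp only [cr, PiLp.add_apply]
  ring

/-- The real estimate. -/
theorem alg {h ε a0 b0 a2 b2 a3 b3 a4 b4 x t : ℝ} (hh : 0 ≤ h) (hε0 : 0 ≤ ε)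
    (hε : ε ^ 2 = 64 * h) (hε1 : ε ≤ 1 / 4000)
    (ha0 : -h ≤ a0) (hb0 : -h ≤ b0) (ha2 : -h ≤ a2) (hb2 : -h ≤ b2) (ha3 : -h ≤ a3)
    (hb3 : -h ≤ b3) (ha4 : -h ≤ a4) (hb4 : -h ≤ b4)
    (ha0' : a0 ≤ ε) (hb0' : b0 ≤ ε) (ha2' : a2 ≤ ε) (hb2' : b2 ≤ ε) (ha3' : a3 ≤ ε)
    (hb3' : b3 ≤ ε) (ha4' : a4 ≤ ε) (hb4' : b4 ≤ ε)
    (hx : |x| ≤ 1 + h) (ht : t ≤ h)
    (hA : 8 ≤ (2 - a3 - a0) * (2 - b4 - b2) + (2 - b3 - b0) * (2 - a4 - a2)
      + (x + 1 - a0) * (b2 - b0) + (t + b0) * (2 - a0 - a2)) :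
    |(a0 - a3) * (b2 - b4) - (b0 - b3) * (a4 - a2)| ≤ h := by
  have h8 : ε * ε ≤ ε * (1 / 4000) := mul_le_mul_of_nonneg_left hε1 hε0
  have hhε : h ≤ ε / 64 := by linarith [sq ε]
  have hhε' : h ≤ ε := by linarith
  obtain ⟨hx1, hx2⟩ := abs_le.mp hx
  have sq : ∀ u v : ℝ, -h ≤ u → u ≤ ε → -h ≤ v → v ≤ ε → |u * v| ≤ ε ^ 2 := by
    intro u v h1 h2 h3 h4
    rw [abs_mul, sq]
    exact mul_le_mul (abs_le.mpr ⟨by linarith, h2⟩) (abs_le.mpr ⟨by linarith, h4⟩)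
      (abs_nonneg _) hε0
  have hm : ∀ u v : ℝ, -h ≤ u → u ≤ ε → -h ≤ v → v ≤ ε → u * v ≤ 64 * h ∧ -(64 * h) ≤ u * v := by
    intro u v h1 h2 h3 h4
    have := abs_le.mp (sq u v h1 h2 h3 h4)
    rw [hε] at this
    exact ⟨this.2, this.1⟩
  -- expansion
  have hexp : (2 - a3 - a0) * (2 - b4 - b2) + (2 - b3 - b0) * (2 - a4 - a2)
      + (x + 1 - a0) * (b2 - b0) + (t + b0) * (2 - a0 - a2) =
      8 - 2 * (a0 + a2 + a3 + a4 + b3 + b4) - b0 * (1 + x) - b2 * (1 - x) + t * (2 - a0 - a2)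
      + (a3 * b4 + a3 * b2 + a0 * b4 + a0 * b2) + (b3 * a4 + b3 * a2 + b0 * a4 + b0 * a2)
      - a0 * b2 + a0 * b0 - b0 * a0 - b0 * a2 := by ring
  have t1 : t * (2 - a0 - a2) ≤ 3 * h := by
    have h1 : t * (2 - a0 - a2) ≤ h * (2 - a0 - a2) :=
      mul_le_mul_of_nonneg_right ht (by linarith)
    have h2 : h * (2 - a0 - a2) ≤ h * 3 := mul_le_mul_of_nonneg_left (by linarith) hh
    linarith
  have t2 : -(3 * h) ≤ b0 * (1 + x) := by
    rcases le_or_gt 0 (1 + x) with h1 | h1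
    · have : -h * (1 + x) ≤ b0 * (1 + x) := mul_le_mul_of_nonneg_right hb0 h1
      nlinarith
    · rcases le_or_gt 0 b0 with h2 | h2
      · have : b0 * (-h) ≤ b0 * (1 + x) := mul_le_mul_of_nonneg_left (by linarith) h2
        nlinarith
      · have : 0 ≤ b0 * (1 + x) := mul_nonneg_of_nonpos_of_nonpos h2.le h1.le
        linarith
  have t3 : -(3 * h) ≤ b2 * (1 - x) := by
    rcases le_or_gt 0 (1 - x) with h1 | h1
    · have : -h * (1 - x) ≤ b2 * (1 - x) := mul_le_mul_of_nonneg_right hb2 h1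
      nlinarith
    · rcases le_or_gt 0 b2 with h2 | h2
      · have : b2 * (-h) ≤ b2 * (1 - x) := mul_le_mul_of_nonneg_left (by linarith) h2
        nlinarith
      · have : 0 ≤ b2 * (1 - x) := mul_nonneg_of_nonpos_of_nonpos h2.le h1.le
        linarith
  have m1 := hm a3 b4 ha3 ha3' hb4 hb4'
  have m2 := hm a3 b2 ha3 ha3' hb2 hb2'
  have m3 := hm a0 b4 ha0 ha0' hb4 hb4'
  have m5 := hm b3 a4 hb3 hb3' ha4 ha4'
  have m6 := hm b3 a2 hb3 hb3' ha2 ha2'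
  have m7 := hm b0 a4 hb0 hb0' ha4 ha4'
  have key : 2 * (a0 + a2 + a3 + a4 + b3 + b4) ≤ 9 * h + 384 * h := by
    rw [hexp] at hA
    linarith [m1.1, m2.1, m3.1, m5.1, m6.1, m7.1]
  have A0 : |a0| ≤ 202 * h := abs_le.mpr ⟨by linarith, by linarith⟩
  have A2 : |a2| ≤ 202 * h := abs_le.mpr ⟨by linarith, by linarith⟩
  have A3 : |a3| ≤ 202 * h := abs_le.mpr ⟨by linarith, by linarith⟩
  have A4 : |a4| ≤ 202 * h := abs_le.mpr ⟨by linarith, by linarith⟩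
  have B1 : |b2 - b4| ≤ 2 * ε := abs_le.mpr ⟨by linarith, by linarith⟩
  have B2 : |b0 - b3| ≤ 2 * ε := abs_le.mpr ⟨by linarith, by linarith⟩
  have C1 : |a0 - a3| ≤ 404 * h := (abs_sub _ _).trans (by linarith)
  have C2 : |a4 - a2| ≤ 404 * h := (abs_sub _ _).trans (by linarith)
  have D1 : |(a0 - a3) * (b2 - b4)| ≤ 404 * h * (2 * ε) := by
    rw [abs_mul]
    exact mul_le_mul C1 B1 (abs_nonneg _) (by linarith)
  have D2 : |(b0 - b3) * (a4 - a2)| ≤ 2 * ε * (404 * h) := by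
    rw [abs_mul]
    exact mul_le_mul B2 C2 (abs_nonneg _) (by linarith)
  refine (abs_sub _ _).trans ?_
  have h9 : h * ε ≤ h * (1 / 4000) := mul_le_mul_of_nonneg_left hε1 hh
  have : 404 * h * (2 * ε) + 2 * ε * (404 * h) ≤ h := by linarith
  linarith

/-- The estimate for five points, the first, third, fourth and fifth near the corners. -/
theorem alg_pts {h ε : ℝ} (hh : 0 ≤ h) (hε0 : 0 ≤ ε) (hε : ε ^ 2 = 64 * h) (hε1 : ε ≤ 1 / 4000)
    {p0 p1 p2 p3 p4 : V}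
    (hb : ∀ p ∈ ({p0, p1, p2, p3, p4} : Set V), |p 0| ≤ 1 + h ∧ |p 1| ≤ 1 + h)
    (c0 : p0 0 ≤ -1 + ε ∧ p0 1 ≤ -1 + ε) (c2 : 1 - ε ≤ p2 0 ∧ p2 1 ≤ -1 + ε)
    (c3 : 1 - ε ≤ p3 0 ∧ 1 - ε ≤ p3 1) (c4 : p4 0 ≤ -1 + ε ∧ 1 - ε ≤ p4 1)
    (hA : 8 ≤ cr p0 p1 + cr p1 p2 + cr p2 p3 + cr p3 p4 + cr p4 p0) :
    |cr (p0 + p3) (p2 + p4)| ≤ h := by
  have b0 := hb p0 (by simp)
  have b1 := hb p1 (by simp)
  have b2 := hb p2 (by simp)
  have b3 := hb p3 (by simp)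
  have b4 := hb p4 (by simp)
  have i0 := abs_le.mp b0.1
  have i0' := abs_le.mp b0.2
  have i1 := abs_le.mp b1.1
  have i1' := abs_le.mp b1.2
  have i2 := abs_le.mp b2.1
  have i2' := abs_le.mp b2.2
  have i3 := abs_le.mp b3.1
  have i3' := abs_le.mp b3.2
  have i4 := abs_le.mp b4.1
  have i4' := abs_le.mp b4.2
  have := alg (h := h) (ε := ε) (a0 := 1 + p0 0) (b0 := 1 + p0 1) (a2 := 1 - p2 0)
    (b2 := 1 + p2 1) (a3 := 1 - p3 0) (b3 := 1 - p3 1) (a4 := 1 + p4 0) (b4 := 1 - p4 1)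
    (x := p1 0) (t := -1 - p1 1) hh hε0 hε hε1 (by linarith) (by linarith) (by linarith)
    (by linarith) (by linarith) (by linarith) (by linarith) (by linarith)
    (by linarith [c0.1]) (by linarith [c0.2]) (by linarith [c2.1]) (by linarith [c2.2])
    (by linarith [c3.1]) (by linarith [c3.2]) (by linarith [c4.1]) (by linarith [c4.2])
    b1.1 (by linarith) (by
      refine hA.trans (le_of_eq ?_)
      simp only [cr]
      ring)
  have e : cr (p0 + p3) (p2 + p4) = (1 + p0 0 - (1 - p3 0)) * (1 + p2 1 - (1 - p4 1)) -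
      (1 + p0 1 - (1 - p3 1)) * (1 + p4 0 - (1 - p2 0)) := by
    simp only [cr, PiLp.add_apply]
    ring
  rw [e]
  exact this

/-- Quarter turns. -/
noncomputable def qt (k : Fin 4) (p : V) : V :=
  ![!₂[-p 0, -p 1], !₂[-p 1, p 0], p, !₂[p 1, -p 0]] k

theorem cr_qt (k : Fin 4) (p q : V) : cr (qt k p) (qt k q) = cr p q := by
  fin_cases k <;> simp [qt, cr] <;> ring

theorem qt_add (k : Fin 4) (p q : V) : qt k (p + q) = qt k p + qt k q := by
  fin_cases k <;> ext i <;> fin_cases i <;> simp [qt] <;> ring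

theorem qt_box {h : ℝ} (k : Fin 4) {p : V} (hp : |p 0| ≤ 1 + h ∧ |p 1| ≤ 1 + h) :
    |qt k p 0| ≤ 1 + h ∧ |qt k p 1| ≤ 1 + h := by
  fin_cases k <;> simp [qt, hp.1, hp.2]

/-- Signs of the corner number `k`, at the angle `π / 4 + k π / 2`. -/
def s1 (k : Fin 4) : ℝ := ![1, -1, -1, 1] k

def s2 (k : Fin 4) : ℝ := ![1, 1, -1, -1] k

/-- Near the corner `k`. -/
def NC (ε : ℝ) (k : Fin 4) (p : V) : Prop := 1 - ε ≤ s1 k * p 0 ∧ 1 - ε ≤ s2 k * p 1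

theorem alg_rot {h ε : ℝ} (hh : 0 ≤ h) (hε0 : 0 ≤ ε) (hε : ε ^ 2 = 64 * h) (hε1 : ε ≤ 1 / 4000)
    {p0 p1 p2 p3 p4 : V} (k : Fin 4)
    (hb : ∀ p ∈ ({p0, p1, p2, p3, p4} : Set V), |p 0| ≤ 1 + h ∧ |p 1| ≤ 1 + h)
    (c0 : NC ε k p0) (c2 : NC ε (k + 1) p2) (c3 : NC ε (k + 2) p3) (c4 : NC ε (k + 3) p4)
    (hA : 8 ≤ cr p0 p1 + cr p1 p2 + cr p2 p3 + cr p3 p4 + cr p4 p0) :
    |cr (p0 + p3) (p2 + p4)| ≤ h := by
  have h1 := alg_pts hh hε0 hε hε1 (p0 := qt k p0) (p1 := qt k p1) (p2 := qt k p2)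
    (p3 := qt k p3) (p4 := qt k p4) (by
      intro p hp
      simp only [mem_insert_iff, mem_singleton_iff] at hp
      rcases hp with rfl | rfl | rfl | rfl | rfl <;> exact qt_box k (hb _ (by simp)))
    (by
      obtain ⟨a, b⟩ := c0
      fin_cases k <;> simp [qt, s1, s2] at a b ⊢ <;> constructor <;> linarith)
    (by
      obtain ⟨a, b⟩ := c2
      fin_cases k <;> simp [qt, s1, s2] at a b ⊢ <;> constructor <;> linarith)
    (by
      obtain ⟨a, b⟩ := c3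
      fin_cases k <;> simp [qt, s1, s2] at a b ⊢ <;> constructor <;> linarith)
    (by
      obtain ⟨a, b⟩ := c4
      fin_cases k <;> simp [qt, s1, s2] at a b ⊢ <;> constructor <;> linarith)
    (by simpa only [cr_qt] using hA)
  rwa [← qt_add, ← qt_add, cr_qt] at h1

end C2305bFat
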