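import Pool.Agent.W_c2305b_h77.FatM2a

/-!
# MP_c2305b_co, static part near parallelograms, 2: localisation near the corners
-/

open MeasureTheory Set Real

namespace C2305bFat

open C2305b.TL (V cr)
open C2305bH52.DiscGap (uv uv_zero uv_one cr_uv)
open C2305bH52.Dow
open C2305bH68 (box convex_box volume_box)

theorem s1_cases (k : Fin 4) : s1 k = 1 ∨ s1 k = -1 := by fin_cases k <;> simp [s1]

theorem s2_cases (k : Fin 4) : s2 k = 1 ∨ s2 k = -1 := by fin_cases k <;> simp [s2]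

/-- The interval `{x | s x ∈ [M - t, M]}`. -/
theorem side_box {M t : ℝ} (ht : 0 ≤ t) (k : Fin 4) :
    ∃ B : Set V, MeasurableSet B ∧ volume B = ENNReal.ofReal (t ^ 2) ∧
      (∀ z ∈ B, M - t ≤ s1 k * z 0 ∧ M - t ≤ s2 k * z 1) ∧
      (t ≤ 2 * M → ∀ z ∈ B, |z 0| ≤ M ∧ |z 1| ≤ M) := by
  have hm : ∀ a b c d : ℝ, MeasurableSet (box a b c d) := by
    intro a b c d
    have e : box a b c d = (fun v : V => v 0) ⁻¹' (Icc a b) ∩ (fun v : V => v 1) ⁻¹' (Icc c d) := by
      ext v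
      simp only [box, mem_setOf_eq, mem_inter_iff, mem_preimage, mem_Icc]
      tauto
    rw [e]
    exact ((by fun_prop : Continuous fun v : V => v 0).measurable measurableSet_Icc).inter
      ((by fun_prop : Continuous fun v : V => v 1).measurable measurableSet_Icc)
  rcases s1_cases k with h1 | h1 <;> rcases s2_cases k with h2 | h2
  · refine ⟨box (M - t) M (M - t) M, hm _ _ _ _, ?_, ?_, ?_⟩
    · rw [volume_box (by linarith)]; congr 1; ring
    · rintro z ⟨a, b, c, d⟩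
      rw [h1, h2]; constructor <;> linarith
    · rintro h3 z ⟨a, b, c, d⟩
      exact ⟨abs_le.mpr ⟨by linarith, by linarith⟩, abs_le.mpr ⟨by linarith, by linarith⟩⟩
  · refine ⟨box (M - t) M (-M) (-M + t), hm _ _ _ _, ?_, ?_, ?_⟩
    · rw [volume_box (by linarith)]; congr 1; ring
    · rintro z ⟨a, b, c, d⟩
      rw [h1, h2]; constructor <;> linarith
    · rintro h3 z ⟨a, b, c, d⟩
      exact ⟨abs_le.mpr ⟨by linarith, by linarith⟩, abs_le.mpr ⟨by linarith, by linarith⟩⟩
  · refine ⟨box (-M) (-M + t) (M - t) M, hm _ _ _ _, ?_, ?_, ?_⟩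
    · rw [volume_box (by linarith)]; congr 1; ring
    · rintro z ⟨a, b, c, d⟩
      rw [h1, h2]; constructor <;> linarith
    · rintro h3 z ⟨a, b, c, d⟩
      exact ⟨abs_le.mpr ⟨by linarith, by linarith⟩, abs_le.mpr ⟨by linarith, by linarith⟩⟩
  · refine ⟨box (-M) (-M + t) (-M) (-M + t), hm _ _ _ _, ?_, ?_, ?_⟩
    · rw [volume_box (by linarith)]; congr 1; ring
    · rintro z ⟨a, b, c, d⟩
      rw [h1, h2]; constructor <;> linarith
    · rintro h3 z ⟨a, b, c, d⟩
      exact ⟨abs_le.mpr ⟨by linarith, by linarith⟩, abs_le.mpr ⟨by linarith, by linarith⟩⟩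

/-- Five points of the box whose hull has area at least 4 come near every corner. -/
theorem loc {h ε : ℝ} (hh : 0 < h) (hε0 : 0 ≤ ε) (hε : ε ^ 2 = 64 * h) (hε1 : ε ≤ 1 / 4000)
    {q : Fin 5 → V} (hb : ∀ j, |q j 0| ≤ 1 + h ∧ |q j 1| ≤ 1 + h)
    (hv : 4 ≤ (volume (convexHull ℝ (range q))).toReal) (k : Fin 4) : ∃ j, NC ε k (q j) := by
  by_contra hcon
  push Not at hcon
  have h8 : ε * ε ≤ ε * (1 / 4000) := mul_le_mul_of_nonneg_left hε1 hε0
  have hhε : h ≤ 1 / 4000 := by linarith [sq ε]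
  have habs : ∀ z : V, |z 0| ≤ 1 + h ∧ |z 1| ≤ 1 + h → s1 k * z 0 ≤ 1 + h ∧ s2 k * z 1 ≤ 1 + h := by
    intro z ⟨a, b⟩
    have a' := abs_le.mp a
    have b' := abs_le.mp b
    constructor
    · rcases s1_cases k with h1 | h1 <;> rw [h1] <;> linarith
    · rcases s2_cases k with h1 | h1 <;> rw [h1] <;> linarith
  have hle : ∀ j, s1 k * q j 0 + s2 k * q j 1 ≤ 2 * (1 + h) - ε := by
    intro j
    by_contra hc
    push Not at hc
    have := habs _ (hb j)
    exact hcon j ⟨by linarith, by linarith⟩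
  -- the hull
  have hlin : IsLinearMap ℝ fun v : V => s1 k * v 0 + s2 k * v 1 :=
    ⟨fun x y => by simp only [PiLp.add_apply]; ring,
      fun c x => by simp only [PiLp.smul_apply, smul_eq_mul]; ring⟩
  have hs1 : convexHull ℝ (range q) ⊆ {v | s1 k * v 0 + s2 k * v 1 ≤ 2 * (1 + h) - ε} := by
    refine convexHull_min ?_ (convex_halfSpace_le hlin _)
    rintro _ ⟨j, rfl⟩
    exact hle j
  have hs2 : convexHull ℝ (range q) ⊆ box (-(1 + h)) (1 + h) (-(1 + h)) (1 + h) := by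
    refine convexHull_min ?_ (convex_box _ _ _ _)
    rintro _ ⟨j, rfl⟩
    have a := abs_le.mp (hb j).1
    have b := abs_le.mp (hb j).2
    exact ⟨a.1, a.2, b.1, b.2⟩
  obtain ⟨B, hBm, hBv, hB1, hB2⟩ := side_box (M := 1 + h) (t := 2 * ε / 5) (by positivity) k
  have hdisj : Disjoint (convexHull ℝ (range q)) B := by
    rw [Set.disjoint_left]
    intro z hz hzB
    have h1 := hs1 hz
    have h2 := hB1 z hzB
    simp only [mem_setOf_eq] at h1
    have hεpos : 0 < ε := by
      rcases hε0.lt_or_eq with h3 | h3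
      · exact h3
      · rw [← h3] at hε
        norm_num at hε
        linarith
    linarith
  have hsub : convexHull ℝ (range q) ∪ B ⊆ box (-(1 + h)) (1 + h) (-(1 + h)) (1 + h) := by
    refine union_subset hs2 ?_
    intro z hz
    have h1 := hB2 (by linarith) z hz
    have a := abs_le.mp h1.1
    have b := abs_le.mp h1.2
    exact ⟨a.1, a.2, b.1, b.2⟩
  have hvol := measure_mono (μ := volume) hsub
  rw [measure_union hdisj hBm, volume_box (by linarith), hBv] at hvol
  have hfin : volume (convexHull ℝ (range q)) ≠ ⊤ :=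
    ((Set.finite_range q).isCompact_convexHull ℝ).measure_lt_top.ne
  have h4 := ENNReal.toReal_mono ENNReal.ofReal_ne_top hvol
  rw [ENNReal.toReal_add hfin ENNReal.ofReal_ne_top, ENNReal.toReal_ofReal (by positivity),
    ENNReal.toReal_ofReal (by nlinarith)] at h4
  have h5 : (2 * ε / 5) ^ 2 = 4 / 25 * ε ^ 2 := by ring
  rw [h5, hε] at h4
  nlinarith

/-- The angle of a boundary point near a corner. -/
theorem ang_near {N : V → ℝ} (hN : Nrm N) {h ε : ℝ} (hε0 : 0 ≤ ε) (hε1 : ε ≤ 1 / 4000)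
    (hh0 : 0 ≤ h) (hh : h ≤ ε) {u : ℝ} (hb : |gam N u 0| ≤ 1 + h ∧ |gam N u 1| ≤ 1 + h)
    {k : Fin 4} (hk : NC ε k (gam N u)) :
    ∃ l : ℤ, |u - (π / 4 + (k : ℕ) * (π / 2)) - 2 * π * l| ≤ π / 8 := by
  have hpi := Real.pi_pos
  set r := (N (uv u))⁻¹ with hr
  have hr0 : 0 < r := inv_pos.2 (uv_pos hN u)
  have e0 : gam N u 0 = r * cos u := by simp [gam, hr]
  have e1 : gam N u 1 = r * sin u := by simp [gam, hr]
  set θ := π / 4 + (k : ℕ) * (π / 2) with hθ
  have hsq : (√2 / 2) ^ 2 = 1 / 2 := by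
    rw [div_pow, Real.sq_sqrt (by norm_num)]; norm_num
  have hcs : cos θ = s1 k * (√2 / 2) ∧ sin θ = s2 k * (√2 / 2) := by
    rw [hθ]
    fin_cases k
    · simp [s1, s2, Real.cos_pi_div_four, Real.sin_pi_div_four]
    · have e : π / 4 + ((1 : ℕ) : ℝ) * (π / 2) = π / 4 + π / 2 := by push_cast; ring
      have e' : π / 4 + (((1 : Fin 4) : ℕ) : ℝ) * (π / 2) = π / 4 + π / 2 := by
        simp
      show cos (π / 4 + (((1 : Fin 4) : ℕ) : ℝ) * (π / 2)) = _ ∧
        sin (π / 4 + (((1 : Fin 4) : ℕ) : ℝ) * (π / 2)) = _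
      rw [e', Real.cos_add_pi_div_two, Real.sin_add_pi_div_two, Real.cos_pi_div_four,
        Real.sin_pi_div_four]
      simp [s1, s2]
    · have e' : π / 4 + (((2 : Fin 4) : ℕ) : ℝ) * (π / 2) = π / 4 + π := by
        have : (((2 : Fin 4) : ℕ) : ℝ) = 2 := by norm_num
        rw [this]; ring
      show cos (π / 4 + (((2 : Fin 4) : ℕ) : ℝ) * (π / 2)) = _ ∧
        sin (π / 4 + (((2 : Fin 4) : ℕ) : ℝ) * (π / 2)) = _
      rw [e', Real.cos_add_pi, Real.sin_add_pi, Real.cos_pi_div_four, Real.sin_pi_div_four]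
      simp [s1, s2]
    · have e' : π / 4 + (((3 : Fin 4) : ℕ) : ℝ) * (π / 2) = (π / 4 + π) + π / 2 := by
        have : (((3 : Fin 4) : ℕ) : ℝ) = 3 := by norm_num
        rw [this]; ring
      show cos (π / 4 + (((3 : Fin 4) : ℕ) : ℝ) * (π / 2)) = _ ∧
        sin (π / 4 + (((3 : Fin 4) : ℕ) : ℝ) * (π / 2)) = _
      rw [e', Real.cos_add_pi_div_two, Real.sin_add_pi_div_two, Real.cos_add_pi, Real.sin_add_pi,
        Real.cos_pi_div_four, Real.sin_pi_div_four]
      simp [s1, s2]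
  obtain ⟨hc, hs⟩ := hcs
  obtain ⟨hk1, hk2⟩ := hk
  have q1 : s1 k ^ 2 = 1 := by rcases s1_cases k with h1 | h1 <;> rw [h1] <;> norm_num
  have q2 : s2 k ^ 2 = 1 := by rcases s2_cases k with h1 | h1 <;> rw [h1] <;> norm_num
  -- the cosine and sine of the difference
  have hroot : 0 < √2 / 2 := by positivity
  have hroot1 : √2 / 2 ≤ 1 := by nlinarith
  have hroot2 : 1 / 2 ≤ √2 / 2 := by nlinarith
  have dc : r * cos (u - θ) = (s1 k * gam N u 0 + s2 k * gam N u 1) * (√2 / 2) := by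
    rw [cos_sub, hc, hs, e0, e1]; ring
  have ds : r * sin (u - θ) = (s1 k * gam N u 1 - s2 k * gam N u 0) * (√2 / 2) := by
    rw [sin_sub, hc, hs, e0, e1]; ring
  have b1 : s1 k * gam N u 0 ≤ 1 + h := by
    have := abs_le.mp hb.1
    rcases s1_cases k with h1 | h1 <;> rw [h1] <;> linarith
  have b2 : s2 k * gam N u 1 ≤ 1 + h := by
    have := abs_le.mp hb.2
    rcases s2_cases k with h1 | h1 <;> rw [h1] <;> linarith
  have dc' : 1 / 2 ≤ r * cos (u - θ) := by
    rw [dc]; nlinarith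
  have hcpos : 0 < cos (u - θ) := by
    by_contra hcon
    push Not at hcon
    nlinarith
  have hswap : |s1 k * gam N u 1 - s2 k * gam N u 0| ≤ 2 * ε := by
    have e3 : s1 k * gam N u 1 - s2 k * gam N u 0 =
        s1 k * s2 k * (s2 k * gam N u 1 - s1 k * gam N u 0) := by
      have : s1 k * s2 k * (s2 k * gam N u 1 - s1 k * gam N u 0) =
        s1 k * s2 k ^ 2 * gam N u 1 - s1 k ^ 2 * s2 k * gam N u 0 := by ring
      rw [this, q1, q2]; ring
    have e4 : |s1 k * s2 k| = 1 := by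
      rw [abs_mul]
      rcases s1_cases k with h1 | h1 <;> rcases s2_cases k with h2 | h2 <;> rw [h1, h2] <;> norm_num
    rw [e3, abs_mul, e4, one_mul]
    exact abs_le.mpr ⟨by linarith, by linarith⟩
  have ds' : |r * sin (u - θ)| ≤ 2 * ε := by
    rw [ds, abs_mul, abs_of_pos hroot]
    have := mul_le_mul hswap hroot1 hroot.le (by positivity)
    linarith
  have hr1 : 1 / 2 ≤ r := by
    have h1 := mul_le_mul_of_nonneg_left (Real.cos_le_one (u - θ)) hr0.le
    linarith
  have hsin : |sin (u - θ)| ≤ 4 * ε := by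
    rw [abs_mul, abs_of_pos hr0] at ds'
    have := mul_le_mul_of_nonneg_right hr1 (abs_nonneg (sin (u - θ)))
    linarith
  -- reduce modulo 2π
  obtain ⟨l, hl⟩ : ∃ l : ℤ, |u - θ - 2 * π * l| ≤ π := by
    refine ⟨round ((u - θ) / (2 * π)), ?_⟩
    have h1 := abs_sub_round ((u - θ) / (2 * π))
    have h2 : u - θ - 2 * π * (round ((u - θ) / (2 * π)) : ℤ) =
        2 * π * ((u - θ) / (2 * π) - round ((u - θ) / (2 * π))) := by
      field_simp
    rw [h2, abs_mul, abs_of_pos (by positivity : (0 : ℝ) < 2 * π)]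
    have := mul_le_mul_of_nonneg_left h1 (by positivity : (0 : ℝ) ≤ 2 * π)
    linarith
  refine ⟨l, ?_⟩
  set w := u - θ - 2 * π * l with hw
  have hcw : cos w = cos (u - θ) := by
    rw [hw, show u - θ - 2 * π * l = (u - θ) - l * (2 * π) by ring, Real.cos_sub_int_mul_two_pi]
  have hsw : sin w = sin (u - θ) := by
    rw [hw, show u - θ - 2 * π * l = (u - θ) - l * (2 * π) by ring, Real.sin_sub_int_mul_two_pi]
  have hw2 : |w| ≤ π / 2 := by
    by_contra hcon
    push Not at hcon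
    have h1 : cos |w| < 0 := Real.cos_neg_of_pi_div_two_lt_of_lt hcon (by linarith)
    rw [Real.cos_abs, hcw] at h1
    linarith
  have h1 : 2 / π * |w| ≤ sin |w| := Real.mul_le_sin (abs_nonneg w) hw2
  have h2 : sin |w| ≤ 4 * ε := by
    rcases abs_cases w with ⟨h3, -⟩ | ⟨h3, -⟩
    · rw [h3, hsw]
      exact (le_abs_self _).trans hsin
    · rw [h3, Real.sin_neg, hsw]
      exact (neg_le_abs _).trans hsin
  have h3 : 2 / π * |w| ≤ 1 / 1000 := by linarith
  have h4 : |w| = 2 / π * |w| * (π / 2) := by field_simp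
  rw [h4]
  have h5 := mul_le_mul_of_nonneg_right h3 (by positivity : (0 : ℝ) ≤ π / 2)
  linarith

end C2305bFat
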