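import Pool.Agent.W_c2305b_h77.FatM2b

/-!
# MP_c2305b_co, static part near parallelograms, 3: pentagons
-/

open MeasureTheory Set Real

namespace C2305bFat

open C2305b.TL (V cr)
open C2305bH52.DiscGap (uv uv_zero uv_one cr_uv)
open C2305bH52.Dow

set_option maxRecDepth 100000 in
theorem inj45 : ∀ j0 j1 j2 j3 : Fin 5, j0 ≠ j1 → j0 ≠ j2 → j0 ≠ j3 → j1 ≠ j2 → j1 ≠ j3 → j2 ≠ j3 →
    ∃ s : Fin 5, (s = j0 ∨ s = j1 ∨ s = j2 ∨ s = j3) ∧
      (s + 2 = j0 ∨ s + 2 = j1 ∨ s + 2 = j2 ∨ s + 2 = j3) ∧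
      (s + 3 = j0 ∨ s + 3 = j1 ∨ s + 3 = j2 ∨ s + 3 = j3) ∧
      (s + 4 = j0 ∨ s + 4 = j1 ∨ s + 4 = j2 ∨ s + 4 = j3) := by
  decide

theorem fin4_1 {a b : Fin 4} {m : ℤ} (h : ((b : ℕ) : ℤ) = ((a : ℕ) : ℤ) + 1 + 4 * m) :
    b = a + 1 := by
  have ha := a.isLt
  have hb := b.isLt
  apply Fin.ext
  rw [Fin.val_add]
  show (b : ℕ) = ((a : ℕ) + 1) % 4
  omega

theorem fin4_2 {a b : Fin 4} {m : ℤ} (h : ((b : ℕ) : ℤ) = ((a : ℕ) : ℤ) + 2 + 4 * m) :
    b = a + 2 := by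
  have ha := a.isLt
  have hb := b.isLt
  apply Fin.ext
  rw [Fin.val_add]
  show (b : ℕ) = ((a : ℕ) + 2) % 4
  omega

theorem fin4_3 {a b : Fin 4} {m : ℤ} (h : ((b : ℕ) : ℤ) = ((a : ℕ) : ℤ) + 3 + 4 * m) :
    b = a + 3 := by
  have ha := a.isLt
  have hb := b.isLt
  apply Fin.ext
  rw [Fin.val_add]
  show (b : ℕ) = ((a : ℕ) + 3) % 4
  omega

theorem pent_le {N : V → ℝ} (hN : Nrm N) {h : ℝ} (hh : 0 < h) (hh1 : 64 * h ≤ (1 / 4000) ^ 2)
    (hb : ∀ t, |gam N t 0| ≤ 1 + h ∧ |gam N t 1| ≤ 1 + h) (hcr : ∀ s t, FF N s t ≤ 2)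
    (h4 : 4 ≤ sm N 5) : 2 * sm N 5 ≤ sm N 6 + 4 + h := by
  have hpi := Real.pi_pos
  obtain ⟨⟨u, hu, hA⟩, -⟩ := sm_spec hN (show 2 ≤ 5 by norm_num)
  set ε := √(64 * h) with hεdef
  have hε0 : 0 ≤ ε := Real.sqrt_nonneg _
  have hε : ε ^ 2 = 64 * h := Real.sq_sqrt (by positivity)
  have hε1 : ε ≤ 1 / 4000 := by
    rw [hεdef]
    exact Real.sqrt_le_iff.mpr ⟨by norm_num, hh1⟩
  have hhε : h ≤ ε := by nlinarith
  have hv : 4 ≤ (volume (convexHull ℝ (range fun k : Fin 5 => gam N (u k)))).toReal := by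
    have := AA_le_volume hN hu
    rw [hA] at this
    exact h4.trans this
  have hloc := fun k => loc hh hε0 hε hε1 (q := fun k : Fin 5 => gam N (u k))
    (fun j => hb _) hv k
  choose j hj using hloc
  have hang := fun k => ang_near hN hε0 hε1 hh.le hhε (hb _) (hj k)
  choose l hl using hang
  -- the integer attached to a corner
  have hn : ∀ k : Fin 4, |u (j k) - π / 4 - (((k : ℕ) : ℤ) + 4 * l k : ℤ) * (π / 2)| ≤ π / 8 := by
    intro k
    have e : u (j k) - π / 4 - (((k : ℕ) : ℤ) + 4 * l k : ℤ) * (π / 2) =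
        u (j k) - (π / 4 + (k : ℕ) * (π / 2)) - 2 * π * l k := by push_cast; ring
    rw [e]; exact hl k
  have hint : ∀ m : ℤ, |(m : ℝ) * (π / 2)| ≤ π / 4 → m = 0 := by
    intro m hm
    rw [abs_mul, abs_of_pos (by positivity : (0 : ℝ) < π / 2)] at hm
    have h1 : |(m : ℝ)| < 1 := by
      by_contra hc
      push Not at hc
      have := mul_le_mul_of_nonneg_right hc (by positivity : (0 : ℝ) ≤ π / 2)
      linarith
    have h2 : |m| < 1 := by exact_mod_cast h1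
    exact Int.abs_lt_one_iff.mp h2
  have hinj : ∀ k k' : Fin 4, k ≠ k' → j k ≠ j k' := by
    intro k k' hkk hjj
    have h1 := hn k
    have h2 := hn k'
    rw [← hjj] at h2
    have h3 := hint ((((k : ℕ) : ℤ) + 4 * l k) - (((k' : ℕ) : ℤ) + 4 * l k')) (by
      have a1 := abs_le.mp h1
      have a2 := abs_le.mp h2
      have e : (((((k : ℕ) : ℤ) + 4 * l k) - (((k' : ℕ) : ℤ) + 4 * l k') : ℤ) : ℝ) * (π / 2) =
        (((k : ℕ) : ℤ) + 4 * l k : ℤ) * (π / 2) - (((k' : ℕ) : ℤ) + 4 * l k' : ℤ) * (π / 2) := by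
        push_cast; ring
      rw [e]
      exact abs_le.mpr ⟨by linarith, by linarith⟩)
    apply hkk
    apply Fin.ext
    have := k.isLt
    have := k'.isLt
    omega
  obtain ⟨s, hs0, hs2, hs3, hs4⟩ := inj45 (j 0) (j 1) (j 2) (j 3) (hinj 0 1 (by decide))
    (hinj 0 2 (by decide)) (hinj 0 3 (by decide)) (hinj 1 2 (by decide)) (hinj 1 3 (by decide))
    (hinj 2 3 (by decide))
  have hex : ∀ t : Fin 5, (t = j 0 ∨ t = j 1 ∨ t = j 2 ∨ t = j 3) → ∃ k : Fin 4, j k = t := by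
    rintro t (h1 | h1 | h1 | h1)
    · exact ⟨0, h1.symm⟩
    · exact ⟨1, h1.symm⟩
    · exact ⟨2, h1.symm⟩
    · exact ⟨3, h1.symm⟩
  obtain ⟨a, ha⟩ := hex _ hs0
  obtain ⟨b, hbb⟩ := hex _ hs2
  obtain ⟨c, hc⟩ := hex _ hs3
  obtain ⟨d, hd⟩ := hex _ hs4
  -- shifted sequence
  set v : ℕ → ℝ := fun i => u (i + (s : ℕ)) with hvdef
  have hCv : Cyc 5 v := hu.shift s
  have hAv : AA N 5 v = AA N 5 u := AA_shift hN hu s
  have hpt : ∀ (i : ℕ) (k : Fin 4) (i5 : Fin 5), (i5 : ℕ) = i → j k = s + i5 →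
      ∃ m : ℤ, |v i - π / 4 - ((((k : ℕ) : ℤ) + 4 * m : ℤ) : ℝ) * (π / 2)| ≤ π / 8 ∧
        NC ε k (gam N (v i)) := by
    intro i k i5 hi5 hk
    have hval : ((j k : Fin 5) : ℕ) = (s + i) % 5 := by rw [hk, Fin.val_add, hi5]
    have hs5 := s.isLt
    have hi5' := i5.isLt
    rcases Nat.lt_or_ge ((s : ℕ) + i) 5 with h1 | h1
    · have e : v i = u (j k) := by
        show u (i + s) = _
        rw [hval, Nat.mod_eq_of_lt h1, add_comm]
      refine ⟨l k, ?_, ?_⟩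
      · rw [e]; exact hn k
      · rw [e]; exact hj k
    · have e : v i = u (j k) + 2 * π := by
        show u (i + s) = _
        rw [← hu.per, hval]
        congr 1
        omega
      refine ⟨l k + 1, ?_, ?_⟩
      · have e2 : v i - π / 4 - ((((k : ℕ) : ℤ) + 4 * (l k + 1) : ℤ) : ℝ) * (π / 2) =
          u (j k) - π / 4 - (((k : ℕ) : ℤ) + 4 * l k : ℤ) * (π / 2) := by
          rw [e]; push_cast; ring
        rw [e2]; exact hn k
      · rw [e, gam_add_two_pi hN]; exact hj k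
  obtain ⟨ma, hma, na⟩ := hpt 0 a 0 rfl (by rw [ha, add_zero])
  obtain ⟨mb, hmb, nb⟩ := hpt 2 b 2 rfl hbb
  obtain ⟨mc, hmc, nc⟩ := hpt 3 c 3 rfl hc
  obtain ⟨md, hmd, nd⟩ := hpt 4 d 4 rfl hd
  have g02 : v 0 ≤ v 2 := hCv.le (by norm_num)
  have g23 : v 2 ≤ v 3 := hCv.le (by norm_num)
  have g34 : v 3 ≤ v 4 := hCv.le (by norm_num)
  have g45 : v 4 ≤ v 0 + 2 * π := by
    have h1 : v 4 ≤ v 5 := hCv.le (by norm_num)
    have h2 := hCv.per 0
    rw [zero_add] at h2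
    linarith
  -- comparison of the integers
  have hcmp : ∀ (x y : ℝ) (m n : ℤ), |x - π / 4 - (m : ℝ) * (π / 2)| ≤ π / 8 →
      |y - π / 4 - (n : ℝ) * (π / 2)| ≤ π / 8 → x ≤ y → m ≤ n := by
    intro x y m n h1 h2 hxy
    by_contra hc
    push Not at hc
    have h3 : (n : ℝ) + 1 ≤ m := by exact_mod_cast hc
    have h4 := mul_le_mul_of_nonneg_right h3 (by positivity : (0 : ℝ) ≤ π / 2)
    have a1 := abs_le.mp h1
    have a2 := abs_le.mp h2
    linarith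
  have k1 := hcmp _ _ _ _ hma hmb g02
  have k2 := hcmp _ _ _ _ hmb hmc g23
  have k3 := hcmp _ _ _ _ hmc hmd g34
  have hma' : |v 0 + 2 * π - π / 4 - ((((a : ℕ) : ℤ) + 4 * (ma + 1) : ℤ) : ℝ) * (π / 2)| ≤ π / 8 := by
    have e : v 0 + 2 * π - π / 4 - ((((a : ℕ) : ℤ) + 4 * (ma + 1) : ℤ) : ℝ) * (π / 2) =
      v 0 - π / 4 - ((((a : ℕ) : ℤ) + 4 * ma : ℤ) : ℝ) * (π / 2) := by push_cast; ring
    rw [e]; exact hma
  have k4 := hcmp _ _ _ _ hmd hma' g45
  have hab : a ≠ b := by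
    rintro rfl; rw [ha] at hbb; revert hbb; generalize s = s'; revert s'; decide
  have hac : a ≠ c := by
    rintro rfl; rw [ha] at hc; revert hc; generalize s = s'; revert s'; decide
  have had : a ≠ d := by
    rintro rfl; rw [ha] at hd; revert hd; generalize s = s'; revert s'; decide
  have hbc : b ≠ c := by
    rintro rfl; rw [hbb] at hc; revert hc; generalize s = s'; revert s'; decide
  have hbd : b ≠ d := by
    rintro rfl; rw [hbb] at hd; revert hd; generalize s = s'; revert s'; decide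
  have hcd : c ≠ d := by
    rintro rfl; rw [hc] at hd; revert hd; generalize s = s'; revert s'; decide
  have vab : (a : ℕ) ≠ b := fun h0 => hab (Fin.ext h0)
  have vac : (a : ℕ) ≠ c := fun h0 => hac (Fin.ext h0)
  have vad : (a : ℕ) ≠ d := fun h0 => had (Fin.ext h0)
  have vbc : (b : ℕ) ≠ c := fun h0 => hbc (Fin.ext h0)
  have vbd : (b : ℕ) ≠ d := fun h0 => hbd (Fin.ext h0)
  have vcd : (c : ℕ) ≠ d := fun h0 => hcd (Fin.ext h0)
  have la := a.isLt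
  have lb := b.isLt
  have lc := c.isLt
  have ld := d.isLt
  have q1 : ((b : ℕ) : ℤ) + 4 * mb = ((a : ℕ) : ℤ) + 4 * ma + 1 := by omega
  have q2 : ((c : ℕ) : ℤ) + 4 * mc = ((a : ℕ) : ℤ) + 4 * ma + 2 := by omega
  have q3 : ((d : ℕ) : ℤ) + 4 * md = ((a : ℕ) : ℤ) + 4 * ma + 3 := by omega
  have eb : b = a + 1 := fin4_1 (m := ma - mb) (by linarith)
  have ec : c = a + 2 := fin4_2 (m := ma - mc) (by linarith)
  have ed : d = a + 3 := fin4_3 (m := ma - md) (by linarith)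
  rw [eb] at nb
  rw [ec] at nc
  rw [ed] at nd
  -- the estimate
  have hv5 : gam N (v 5) = gam N (v 0) := by
    have h2 := hCv.per 0
    rw [zero_add] at h2
    rw [h2, gam_add_two_pi hN]
  have hAA : AA N 5 v = cr (gam N (v 0)) (gam N (v 1)) + cr (gam N (v 1)) (gam N (v 2))
      + cr (gam N (v 2)) (gam N (v 3)) + cr (gam N (v 3)) (gam N (v 4))
      + cr (gam N (v 4)) (gam N (v 5)) := by
    simp [AA, FF, Finset.sum_range_succ]
  rw [hv5] at hAA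
  have hA8 : 8 ≤ AA N 5 v := by rw [hAv]; linarith
  have hR := alg_rot hh.le hε0 hε hε1 a (p0 := gam N (v 0)) (p1 := gam N (v 1))
    (p2 := gam N (v 2)) (p3 := gam N (v 3)) (p4 := gam N (v 4))
    (by
      intro p hp
      simp only [mem_insert_iff, mem_singleton_iff] at hp
      rcases hp with rfl | rfl | rfl | rfl | rfl <;> exact hb _)
    na nb nc nd (by rw [← hAA]; exact hA8)
  have hid := pent_id (gam N (v 0)) (gam N (v 1)) (gam N (v 2)) (gam N (v 3)) (gam N (v 4))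
  rw [← hAA] at hid
  have g01 : v 0 ≤ v 1 := hCv.le (by norm_num)
  have g12 : v 1 ≤ v 2 := hCv.le (by norm_num)
  have g20 : v 2 ≤ v 0 + π := by
    have a1 := abs_le.mp hma
    have a2 := abs_le.mp hmb
    have e : ((((b : ℕ) : ℤ) + 4 * mb : ℤ) : ℝ) = ((((a : ℕ) : ℤ) + 4 * ma : ℤ) : ℝ) + 1 := by
      rw [q1]; push_cast; ring
    rw [e] at a2
    linarith
  have hhex := hex_le hN g01 g12 g20
  have h34 := hcr (v 3) (v 4)
  unfold FF at hhex h34
  have hR' := abs_le.mp hR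
  have : AA N 5 v = 2 * sm N 5 := by rw [hAv]; linarith
  linarith

end C2305bFat
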