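import Pool.Agent.W_c2305b_h77.FatM2c

/-!
# MP_c2305b_co, static part near parallelograms, 4: the normal form
-/

open MeasureTheory Set Real

namespace C2305bFat

open C2305b.TL (V cr)
open C2305bH52.DiscGap (uv uv_zero uv_one cr_uv)
open C2305bH52.Dow

theorem gam_of {N : V → ℝ} (hN : Nrm N) {p : V} {t r : ℝ} (hp : N p = 1) (hr : 0 < r)
    (h : p = r • uv t) : gam N t = p := by
  have h1 : N p = r * N (uv t) := by
    rw [h, hN.smul, abs_of_pos hr]
  have h2 := uv_pos hN t
  have h3 : (N (uv t))⁻¹ = r := by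
    rw [hp] at h1
    field_simp
    linarith
  rw [gam, h3, h]

theorem vec_ext {u v : V} (h0 : u 0 = v 0) (h1 : u 1 = v 1) : u = v := by
  ext i
  fin_cases i
  · exact h0
  · exact h1

theorem uv_arctan (q : ℝ) : uv (arctan q) = (√(1 + q ^ 2))⁻¹ • (!₂[1, q] : V) := by
  apply vec_ext
  · simp [Real.cos_arctan]
  · simp [Real.sin_arctan]; ring

theorem uv_arctan' (q : ℝ) : uv (π / 2 - arctan q) = (√(1 + q ^ 2))⁻¹ • (!₂[q, 1] : V) := by
  apply vec_ext
  · simp [Real.cos_pi_div_two_sub, Real.sin_arctan]; ring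
  · simp [Real.sin_pi_div_two_sub, Real.cos_arctan]

section

variable {K : Set V} (hsym : ∀ v ∈ K, -v ∈ K) (hK : IsCompact K) (hconv : Convex ℝ K)
  (hint : (interior K).Nonempty) (hc1 : (!₂[1, 1] : V) ∈ K) (hc2 : (!₂[1, -1] : V) ∈ K)
  (hcr : ∀ u ∈ K, ∀ v ∈ K, cr u v ≤ 2)

include hsym hK hconv hint hc1 hc2 hcr

theorem gam_mem (t : ℝ) : gam (gauge K) t ∈ K := by
  rw [← gauge_le_one hK hconv hsym hint]
  exact (N_gam (nrm_gauge hK hconv hsym hint) t).le

theorem gauge_c1 : gauge K (!₂[1, 1] : V) = 1 := by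
  have hN := nrm_gauge hK hconv hsym hint
  apply le_antisymm
  · exact (gauge_le_one hK hconv hsym hint _).2 hc1
  · by_contra hcon
    push Not at hcon
    have hpos : 0 < gauge K (!₂[1, 1] : V) := hN.pos _ (by
      intro h0
      have := congrArg (fun v : V => v 0) h0
      simp at this)
    have hm : (gauge K (!₂[1, 1] : V))⁻¹ • (!₂[1, 1] : V) ∈ K := by
      rw [← gauge_le_one hK hconv hsym hint, hN.smul, abs_of_pos (inv_pos.2 hpos),
        inv_mul_cancel₀ hpos.ne']
    have h1 := hcr _ hc2 _ hm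
    rw [C2305b.TL.cr_smul_right] at h1
    have h2 : cr (!₂[1, -1] : V) (!₂[1, 1] : V) = 2 := by simp [cr]; norm_num
    rw [h2] at h1
    have h3 : 1 < (gauge K (!₂[1, 1] : V))⁻¹ := (one_lt_inv₀ hpos).2 hcon
    linarith

theorem gauge_c2 : gauge K (!₂[1, -1] : V) = 1 := by
  have hN := nrm_gauge hK hconv hsym hint
  apply le_antisymm
  · exact (gauge_le_one hK hconv hsym hint _).2 hc2
  · by_contra hcon
    push Not at hcon
    have hpos : 0 < gauge K (!₂[1, -1] : V) := hN.pos _ (by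
      intro h0
      have := congrArg (fun v : V => v 0) h0
      simp at this)
    have hm : (gauge K (!₂[1, -1] : V))⁻¹ • (!₂[1, -1] : V) ∈ K := by
      rw [← gauge_le_one hK hconv hsym hint, hN.smul, abs_of_pos (inv_pos.2 hpos),
        inv_mul_cancel₀ hpos.ne']
    have h1 := hcr _ hm _ hc1
    rw [C2305b.TL.cr_smul_left] at h1
    have h2 : cr (!₂[1, -1] : V) (!₂[1, 1] : V) = 2 := by simp [cr]; norm_num
    rw [h2] at h1
    have h3 : 1 < (gauge K (!₂[1, -1] : V))⁻¹ := (one_lt_inv₀ hpos).2 hcon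
    linarith

theorem gam_q1 : gam (gauge K) (π / 4) = !₂[1, 1] := by
  refine gam_of (nrm_gauge hK hconv hsym hint)
    (gauge_c1 hsym hK hconv hint hc1 hc2 hcr) (r := √2) (by positivity) ?_
  have h2 : √2 * (√2 / 2) = 1 := by
    have := Real.mul_self_sqrt (show (0 : ℝ) ≤ 2 by norm_num)
    linarith
  apply vec_ext
  · simp [Real.cos_pi_div_four]; linarith
  · simp [Real.sin_pi_div_four]; linarith

theorem gam_q0 : gam (gauge K) (-(π / 4)) = !₂[1, -1] := by
  refine gam_of (nrm_gauge hK hconv hsym hint)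
    (gauge_c2 hsym hK hconv hint hc1 hc2 hcr) (r := √2) (by positivity) ?_
  have h2 : √2 * (√2 / 2) = 1 := by
    have := Real.mul_self_sqrt (show (0 : ℝ) ≤ 2 by norm_num)
    linarith
  apply vec_ext
  · simp [Real.cos_pi_div_four]; linarith
  · simp [Real.sin_pi_div_four]; linarith

theorem gam_q2 : gam (gauge K) (3 * π / 4) = !₂[-1, 1] := by
  have h := gam_add_pi (nrm_gauge hK hconv hsym hint) (-(π / 4))
  rw [gam_q0 hsym hK hconv hint hc1 hc2 hcr] at h
  have e : 3 * π / 4 = -(π / 4) + π := by ring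
  rw [e, h]
  apply vec_ext <;> simp

/-- The diamond. -/
theorem diamond {z : V} (hz : z ∈ K) : |z 0| + |z 1| ≤ 2 := by
  have h1 := hcr _ hc2 _ hz
  have h2 := hcr _ hc2 _ (hsym _ hz)
  have h3 := hcr _ hz _ hc1
  have h4 := hcr _ (hsym _ hz) _ hc1
  simp [cr] at h1 h2 h3 h4
  rcases abs_cases (z 0) with ⟨h5, -⟩ | ⟨h5, -⟩ <;> rcases abs_cases (z 1) with ⟨h6, -⟩ | ⟨h6, -⟩ <;>
    rw [h5, h6] <;> linarith

theorem four_le : 4 ≤ sm (gauge K) 6 := by
  have hN := nrm_gauge hK hconv hsym hint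
  have h := hex_le hN (a := -(π / 4)) (b := π / 4) (c := π / 4) (by linarith [Real.pi_pos]) le_rfl
    (by linarith [Real.pi_pos])
  unfold FF at h
  rw [gam_q0 hsym hK hconv hint hc1 hc2 hcr, gam_q1 hsym hK hconv hint hc1 hc2 hcr] at h
  simp [cr] at h
  linarith

theorem gam_x {t : ℝ} : gam (gauge K) t 0 ≤ 1 + (sm (gauge K) 6 - 4) / 2 := by
  have hN := nrm_gauge hK hconv hsym hint
  have hpi := Real.pi_pos
  have h4 := four_le hsym hK hconv hint hc1 hc2 hcr
  set p := gam (gauge K) t with hp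
  rcases le_or_gt (p 0) 1 with h | h
  · linarith
  have hd := diamond hsym hK hconv hint hc1 hc2 hcr
    (gam_mem hsym hK hconv hint hc1 hc2 hcr t)
  rw [← hp, abs_of_pos (by linarith : 0 < p 0)] at hd
  have hq : |p 1 / p 0| ≤ 1 := by
    rw [abs_div, abs_of_pos (by linarith : 0 < p 0), div_le_one (by linarith)]
    linarith
  have hq' := abs_le.mp hq
  have hsq : 0 < √(1 + (p 1 / p 0) ^ 2) := by positivity
  have he : gam (gauge K) (arctan (p 1 / p 0)) = p := by
    refine gam_of hN (by rw [hp]; exact N_gam hN t) (r := p 0 * √(1 + (p 1 / p 0) ^ 2))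
      (by positivity) ?_
    rw [uv_arctan, smul_smul]
    have e : p 0 * √(1 + (p 1 / p 0) ^ 2) * (√(1 + (p 1 / p 0) ^ 2))⁻¹ = p 0 := by
      field_simp
    rw [e]
    apply vec_ext
    · simp
    · simp
      field_simp
  have a1 : -(π / 4) ≤ arctan (p 1 / p 0) := by
    rw [← Real.arctan_one, ← Real.arctan_neg]
    exact Real.arctan_mono hq'.1
  have a2 : arctan (p 1 / p 0) ≤ π / 4 := by
    rw [← Real.arctan_one]
    exact Real.arctan_mono hq'.2
  have hh := hex_le hN a1 a2 (by linarith)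
  unfold FF at hh
  rw [he, gam_q0 hsym hK hconv hint hc1 hc2 hcr, gam_q1 hsym hK hconv hint hc1 hc2 hcr] at hh
  simp [cr] at hh
  linarith

theorem gam_y {t : ℝ} : gam (gauge K) t 1 ≤ 1 + (sm (gauge K) 6 - 4) / 2 := by
  have hN := nrm_gauge hK hconv hsym hint
  have hpi := Real.pi_pos
  have h4 := four_le hsym hK hconv hint hc1 hc2 hcr
  set p := gam (gauge K) t with hp
  rcases le_or_gt (p 1) 1 with h | h
  · linarith
  have hd := diamond hsym hK hconv hint hc1 hc2 hcr
    (gam_mem hsym hK hconv hint hc1 hc2 hcr t)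
  rw [← hp, abs_of_pos (by linarith : 0 < p 1)] at hd
  have hq : |p 0 / p 1| ≤ 1 := by
    rw [abs_div, abs_of_pos (by linarith : 0 < p 1), div_le_one (by linarith)]
    linarith
  have hq' := abs_le.mp hq
  have hsq : 0 < √(1 + (p 0 / p 1) ^ 2) := by positivity
  have he : gam (gauge K) (π / 2 - arctan (p 0 / p 1)) = p := by
    refine gam_of hN (by rw [hp]; exact N_gam hN t) (r := p 1 * √(1 + (p 0 / p 1) ^ 2))
      (by positivity) ?_
    rw [uv_arctan', smul_smul]
    have e : p 1 * √(1 + (p 0 / p 1) ^ 2) * (√(1 + (p 0 / p 1) ^ 2))⁻¹ = p 1 := by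
      field_simp
    rw [e]
    apply vec_ext
    · simp
      field_simp
    · simp
  have a1 : -(π / 4) ≤ arctan (p 0 / p 1) := by
    rw [← Real.arctan_one, ← Real.arctan_neg]
    exact Real.arctan_mono hq'.1
  have a2 : arctan (p 0 / p 1) ≤ π / 4 := by
    rw [← Real.arctan_one]
    exact Real.arctan_mono hq'.2
  have hh := hex_le hN (a := π / 4) (b := π / 2 - arctan (p 0 / p 1)) (c := 3 * π / 4)
    (by linarith) (by linarith) (by linarith)
  unfold FF at hh
  rw [he, gam_q1 hsym hK hconv hint hc1 hc2 hcr, gam_q2 hsym hK hconv hint hc1 hc2 hcr] at hh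
  simp [cr] at hh
  linarith

theorem gam_box (t : ℝ) : |gam (gauge K) t 0| ≤ 1 + (sm (gauge K) 6 - 4) / 2 ∧
    |gam (gauge K) t 1| ≤ 1 + (sm (gauge K) 6 - 4) / 2 := by
  have hN := nrm_gauge hK hconv hsym hint
  have e := gam_add_pi hN t
  have x1 := gam_x hsym hK hconv hint hc1 hc2 hcr (t := t)
  have x2 := gam_x hsym hK hconv hint hc1 hc2 hcr (t := t + π)
  have y1 := gam_y hsym hK hconv hint hc1 hc2 hcr (t := t)
  have y2 := gam_y hsym hK hconv hint hc1 hc2 hcr (t := t + π)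
  rw [e] at x2 y2
  simp only [PiLp.neg_apply] at x2 y2
  exact ⟨abs_le.mpr ⟨by linarith, x1⟩, abs_le.mpr ⟨by linarith, y1⟩⟩

/-- The whole body is in the box. -/
theorem mem_box {z : V} (hz : z ∈ K) : |z 0| ≤ 1 + (sm (gauge K) 6 - 4) / 2 ∧
    |z 1| ≤ 1 + (sm (gauge K) 6 - 4) / 2 := by
  have hN := nrm_gauge hK hconv hsym hint
  have h1 := (gauge_le_one hK hconv hsym hint z).2 hz
  have h0 := hN.nonneg z
  have h2 := gam_box hsym hK hconv hint hc1 hc2 hcr (ang z)
  have e := eq_gam hN z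
  have e0 : z 0 = gauge K z * gam (gauge K) (ang z) 0 := by
    conv_lhs => rw [e]
    rfl
  have e1 : z 1 = gauge K z * gam (gauge K) (ang z) 1 := by
    conv_lhs => rw [e]
    rfl
  constructor
  · rw [e0, abs_mul, abs_of_nonneg h0]
    have := mul_le_mul h1 h2.1 (abs_nonneg _) zero_le_one
    linarith
  · rw [e1, abs_mul, abs_of_nonneg h0]
    have := mul_le_mul h1 h2.2 (abs_nonneg _) zero_le_one
    linarith

/-- The height is controlled by `t6 - t5`. -/
theorem height_le (hsmall : 64 * ((sm (gauge K) 6 - 4) / 2) ≤ (1 / 4000) ^ 2) :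
    (sm (gauge K) 6 - 4) / 2 ≤ 2 * (sm (gauge K) 6 - sm (gauge K) 5) := by
  have hN := nrm_gauge hK hconv hsym hint
  have h4 := four_le hsym hK hconv hint hc1 hc2 hcr
  have hm := sm_mono hN (show 2 ≤ 5 by norm_num)
  rcases h4.lt_or_eq with h | h
  · rcases le_or_gt 4 (sm (gauge K) 5) with h5 | h5
    · have := pent_le hN (h := (sm (gauge K) 6 - 4) / 2) (by linarith) hsmall
        (gam_box hsym hK hconv hint hc1 hc2 hcr)
        (fun s t => hcr _ (gam_mem hsym hK hconv hint hc1 hc2 hcr s) _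
          (gam_mem hsym hK hconv hint hc1 hc2 hcr t)) h5
      linarith
    · linarith
  · rw [← h]
    rw [← h] at hm
    linarith

end

end C2305bFat
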